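import Pool.Agent.H10.LDV2.Stmts2

/-!
# LDV2, row CHW: reduction of the choice lemma to the label system

`Chw44.gen` is the general form (any number `E` of layers, any exponent `T`, any threshold `h`);
`chw_thm` is the row.
-/

set_option autoImplicit false

namespace Pool.LDV2

open Finset Pool.Agent.H98.ABCR Pool.SHA Pool.BL Pool.LDV

theorem Chw44.phi4_anti {x g g' : ℝ} (h : g ≤ g') : Phi4 x g' ≤ Phi4 x g := by
  unfold Phi4
  refine max_le_max le_rfl (max_le_max ?_ (max_le_max ?_ ?_)) <;> linarith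

/-- the linear programme for a set of exponents `> E` of cost `k`, general form of `S_BLK` -/
def Chw44.BLKg (E : ℕ) (T h : ℝ) : Prop := ∀ x xj xk k g : ℝ, 0 ≤ x → 0 ≤ xj → 0 ≤ xk →
  x + xj + xk ≤ 1 → T < x + xj → T < x + xk → T < xj + xk → h ≤ k → k ≤ T - 1 / 2 + x / 2 →
  ((E : ℝ) + 1) * k ≤ g → k + (Phi4 xj g + Phi4 xk g) / 2 ≤ T

theorem Chw44.split (E J : ℕ) (hJ : E ≤ J) : Icc 1 J = Icc 1 E ∪ Icc (E + 1) J := by
  ext e
  simp only [mem_Icc, mem_union]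
  omega

theorem Chw44.sum_split (E J : ℕ) (hJ : E ≤ J) (f : ℕ → ℝ) :
    ∑ e ∈ Icc 1 J, f e = ∑ e ∈ Icc 1 E, f e + ∑ e ∈ Icc (E + 1) J, f e := by
  rw [Chw44.split E J hJ, sum_union]
  rw [disjoint_left]
  intro e h1 h2
  have := mem_Icc.1 h1
  have := mem_Icc.1 h2
  omega

/-- the set of exponents of a set `K` of labels -/
def Chw44.real (E : ℕ) (K B S : Finset ℕ) : Finset ℕ :=
  K.filter (· ≤ E) ∪ ((if 8 ∈ K then B else ∅) ∪ (if 9 ∈ K then S else ∅))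

theorem Chw44.mem_real (E : ℕ) (K B S : Finset ℕ) (e : ℕ) :
    e ∈ Chw44.real E K B S ↔ (e ∈ K ∧ e ≤ E) ∨ (8 ∈ K ∧ e ∈ B) ∨ (9 ∈ K ∧ e ∈ S) := by
  unfold Chw44.real
  rw [mem_union, mem_union, mem_filter]
  split_ifs with h8 h9 h9 <;> simp [h8, h9]

theorem Chw44.sum_real (E : ℕ) (K B S : Finset ℕ) (hB : ∀ e ∈ B, E < e) (hS : ∀ e ∈ S, E < e)
    (hBS : Disjoint B S) (f : ℕ → ℝ) :
    ∑ e ∈ Chw44.real E K B S, f e = ∑ e ∈ K.filter (· ≤ E), f e +
      ((if 8 ∈ K then ∑ e ∈ B, f e else 0) + (if 9 ∈ K then ∑ e ∈ S, f e else 0)) := by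
  unfold Chw44.real
  rw [sum_union, sum_union]
  · congr 1
    congr 1
    · split_ifs <;> simp
    · split_ifs <;> simp
  · split_ifs <;> simp [hBS]
  · rw [disjoint_left]
    intro e he hu
    have h4 := (mem_filter.1 he).2
    rcases mem_union.1 hu with h | h
    · split_ifs at h with h5
      · have := hB e h
        omega
      · simp at h
    · split_ifs at h with h6
      · have := hS e h
        omega
      · simp at h

theorem Chw44.mem_labs (E n : ℕ) : n ∈ labs E ↔ n = 8 ∨ n = 9 ∨ (1 ≤ n ∧ n ≤ E) := by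
  unfold labs
  rw [mem_insert, mem_insert, mem_Icc]

theorem Chw44.real_self (E : ℕ) (hE : E ≤ 7) (K : Finset ℕ) (hK : K ⊆ labs E) :
    Chw44.real E K {8} {9} = K := by
  ext e
  rw [Chw44.mem_real, mem_singleton, mem_singleton]
  constructor
  · rintro (h | ⟨h, h'⟩ | ⟨h, h'⟩)
    · exact h.1
    · rw [h']; exact h
    · rw [h']; exact h
  · intro h
    rcases (Chw44.mem_labs E e).1 (hK h) with h1 | h1 | h1
    · right; left
      rw [h1] at h
      exact ⟨h, h1⟩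
    · right; right
      rw [h1] at h
      exact ⟨h, h1⟩
    · exact Or.inl ⟨h, h1.2⟩

theorem Chw44.real_sub (E J : ℕ) (hE : E ≤ 7) (hJ : E ≤ J) (K B S : Finset ℕ) (hK : K ⊆ labs E)
    (hB : B ⊆ Icc 1 J) (hS : S ⊆ Icc 1 J) : Chw44.real E K B S ⊆ Icc 1 J := by
  intro e he
  rcases (Chw44.mem_real E K B S e).1 he with h | h | h
  · have h1 := (Chw44.mem_labs E e).1 (hK h.1)
    exact mem_Icc.2 ⟨by omega, by omega⟩
  · exact hB h.2
  · exact hS h.2

theorem Chw44.real_disj (E : ℕ) (D K B S : Finset ℕ) (hB : ∀ e ∈ B, E < e)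
    (hS : ∀ e ∈ S, E < e) (hBS : Disjoint B S) (hDK : Disjoint D K) :
    Disjoint (Chw44.real E D B S) (Chw44.real E K B S) := by
  rw [disjoint_left]
  intro e h1 h2
  rw [Chw44.mem_real] at h1 h2
  have k1 : ∀ n, n ∈ D → n ∈ K → False := fun n h h' => disjoint_left.1 hDK h h'
  have k2 : e ∈ B → e ∈ S → False := fun h h' => disjoint_left.1 hBS h h'
  rcases h1 with h1 | h1 | h1 <;> rcases h2 with h2 | h2 | h2
  · exact k1 e h1.1 h2.1
  · have := hB e h2.2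
    omega
  · have := hS e h2.2
    omega
  · have := hB e h1.2
    omega
  · exact k1 8 h1.1 h2.1
  · exact k2 h1.2 h2.2
  · have := hS e h1.2
    omega
  · exact k2 h2.2 h1.2
  · exact k1 9 h1.1 h2.1

/-- the labels of one coordinate -/
structure Chw44.Lab (E J : ℕ) (T h : ℝ) (p : ℕ → ℝ) (t : ℝ) (c g : ℕ → ℝ) : Prop where
  hc : ∀ n, 0 ≤ c n
  hg : ∀ n, 0 ≤ g n
  hx : ∑ e ∈ Icc 1 J, p e = ∑ n ∈ Icc 1 E, c n + c 8 + c 9
  hG : ∑ n ∈ Icc 1 E, g n + g 8 + g 9 = t + ∑ e ∈ Icc 1 J, (e : ℝ) * p e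
  hcp : ∀ e ∈ Icc 1 E, c e = p e
  hgp : ∀ e ∈ Icc 1 E, g e = (e : ℝ) * p e
  g8 : ((E : ℝ) + 1) * c 8 ≤ g 8
  g9 : ((E : ℝ) + 1) * c 9 ≤ g 9
  h9 : c 9 ≤ h
  hb : (c 8 = 0 ∧ g 8 = 0) ∨ T - 1 / 2 + (∑ e ∈ Icc 1 J, p e) / 2 < c 8
  hbig : ∃ e ∈ Icc 2 J, c 8 ≤ p e
  hD : ∀ (D K : Finset ℕ) (d : ℕ), 2 ≤ d → ((D ⊆ Icc 1 E ∧ ∀ n ∈ D, d ∣ n) ∨ D = {8}) →
    K ⊆ labs E → Disjoint D K → ∃ (D' K' : Finset ℕ) (d' : ℕ), 2 ≤ d' ∧ d' ≤ J ∧
    D' ⊆ Icc 1 J ∧ K' ⊆ Icc 1 J ∧ Disjoint D' K' ∧ (∀ e ∈ D', d' ∣ e) ∧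
    ∑ e ∈ D', p e = ∑ n ∈ D, c n ∧ ∑ e ∈ K', p e = ∑ n ∈ K, c n ∧
    ∑ n ∈ K, g n ≤ t + ∑ e ∈ K', (e : ℝ) * p e

theorem Chw44.lab (hS : S_SUB) (E : ℕ) (T h : ℝ) (hE2 : 2 ≤ E) (hE5 : E ≤ 5) (hT : 1 / 2 ≤ T)
    (hh : 0 < h) (hhT : h ≤ T - 1 / 2) (hLK : Chw44.BLKg E T h) (J : ℕ) (hJ : 5 ≤ J) (p : ℕ → ℝ)
    (t xj xk : ℝ) (hp : ∀ e, 0 ≤ p e) (ht : 0 ≤ t) (hj : 0 ≤ xj) (hk : 0 ≤ xk)
    (hsum : ∑ e ∈ Icc 1 J, p e + xj + xk ≤ 1)
    (a1 : T < ∑ e ∈ Icc 1 J, p e + xj) (a2 : T < ∑ e ∈ Icc 1 J, p e + xk)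
    (a3 : T < xj + xk)
    (hC : ∀ K : Finset ℕ, K ⊆ Icc 1 J → T < ∑ e ∈ K, p e +
      (Phi4 xj (t + ∑ e ∈ K, (e : ℝ) * p e) + Phi4 xk (t + ∑ e ∈ K, (e : ℝ) * p e)) / 2) :
    ∃ c g : ℕ → ℝ, Chw44.Lab E J T h p t c g := by
  classical
  obtain ⟨x, hx⟩ : ∃ x, x = ∑ e ∈ Icc 1 J, p e := ⟨_, rfl⟩
  rw [← hx] at hsum a1 a2
  have hx0 : 0 ≤ x := by rw [hx]; exact sum_nonneg fun e _ => hp e
  obtain ⟨B, hB⟩ : ∃ B, B = (Icc (E + 1) J).filter (fun e => T - 1 / 2 + x / 2 < p e) := ⟨_, rfl⟩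
  obtain ⟨S, hSd⟩ : ∃ S, S = (Icc (E + 1) J).filter (fun e => ¬ T - 1 / 2 + x / 2 < p e) :=
    ⟨_, rfl⟩
  have hBI : B ⊆ Icc (E + 1) J := by rw [hB]; exact filter_subset _ _
  have hSI : S ⊆ Icc (E + 1) J := by rw [hSd]; exact filter_subset _ _
  have h15 : Icc (E + 1) J ⊆ Icc 1 J := Icc_subset_Icc_left (by omega)
  have hB5 : ∀ e ∈ B, E < e := fun e he => (mem_Icc.1 (hBI he)).1
  have hS5 : ∀ e ∈ S, E < e := fun e he => (mem_Icc.1 (hSI he)).1
  have hBS : Disjoint B S := by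
    rw [hB, hSd]
    exact disjoint_filter_filter_not _ _ _
  have hBSs : ∀ f : ℕ → ℝ, ∑ e ∈ Icc (E + 1) J, f e = ∑ e ∈ B, f e + ∑ e ∈ S, f e := by
    intro f
    rw [hB, hSd]
    exact (sum_filter_add_sum_filter_not _ _ _).symm
  have h5 : ∀ K : Finset ℕ, (∀ e ∈ K, E < e) →
      ((E : ℝ) + 1) * ∑ e ∈ K, p e ≤ ∑ e ∈ K, (e : ℝ) * p e := by
    intro K hK
    rw [mul_sum]
    refine sum_le_sum fun e he => mul_le_mul_of_nonneg_right ?_ (hp e)
    exact_mod_cast hK e he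
  -- the small exponents have total cost less than `h`
  have hS10 : ∑ e ∈ S, p e < h := by
    by_contra hcon
    have hcon := not_lt.1 hcon
    obtain ⟨K, hK, k1, k2⟩ := hS S p h (T - 1 / 2 + x / 2)
      (fun e he => ⟨hp e, by
        rw [hSd] at he
        exact not_lt.1 (mem_filter.1 he).2⟩) hh.le (by linarith) hcon
    have q1 := hC K ((hK.trans hSI).trans h15)
    have q2 := h5 K (fun e he => hS5 e (hK he))
    have q3 := hLK x xj xk (∑ e ∈ K, p e) (t + ∑ e ∈ K, (e : ℝ) * p e) hx0 hj hk hsum a1 a2 a3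
      k1 k2 (by linarith)
    linarith
  -- at most one big exponent
  have hB1 : B = ∅ ∨ ∃ e0 ∈ Icc (E + 1) J, B = {e0} ∧ T - 1 / 2 + x / 2 < p e0 := by
    rcases B.eq_empty_or_nonempty with h | ⟨e0, he0⟩
    · exact Or.inl h
    · right
      refine ⟨e0, hBI he0, ?_, ?_⟩
      · ext e
        rw [mem_singleton]
        constructor
        · intro he
          by_contra hne
          have u1 : p e0 + p e ≤ ∑ e ∈ Icc 1 J, p e := by
            have := sum_le_sum_of_subset_of_nonneg (f := p)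
              (show ({e0, e} : Finset ℕ) ⊆ Icc 1 J from by
                intro n hn
                rcases mem_insert.1 hn with h | h
                · rw [h]; exact h15 (hBI he0)
                · rw [mem_singleton.1 h]; exact h15 (hBI he)) (fun n _ _ => hp n)
            rwa [sum_pair (Ne.symm hne)] at this
          have u2 : T - 1 / 2 + x / 2 < p e0 := by
            rw [hB] at he0
            exact (mem_filter.1 he0).2
          have u3 : T - 1 / 2 + x / 2 < p e := by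
            rw [hB] at he
            exact (mem_filter.1 he).2
          linarith
        · intro he
          rw [he]
          exact he0
      · rw [hB] at he0
        exact (mem_filter.1 he0).2
  obtain ⟨c, hc⟩ : ∃ c : ℕ → ℝ, c = fun n : ℕ => if n = 8 then ∑ e ∈ B, p e else
    if n = 9 then ∑ e ∈ S, p e else p n := ⟨_, rfl⟩
  obtain ⟨g, hg⟩ : ∃ g : ℕ → ℝ, g = fun n : ℕ => if n = 8 then ∑ e ∈ B, (e : ℝ) * p e else
    if n = 9 then t + ∑ e ∈ S, (e : ℝ) * p e else (n : ℝ) * p n := ⟨_, rfl⟩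
  have c8 : c 8 = ∑ e ∈ B, p e := by rw [hc]; simp
  have c9 : c 9 = ∑ e ∈ S, p e := by rw [hc]; simp
  have g8 : g 8 = ∑ e ∈ B, (e : ℝ) * p e := by rw [hg]; simp
  have g9 : g 9 = t + ∑ e ∈ S, (e : ℝ) * p e := by rw [hg]; simp
  have c4 : ∀ e, e ≤ E → c e = p e := by
    intro e he
    rw [hc]
    simp only
    rw [if_neg (by omega), if_neg (by omega)]
  have g4 : ∀ e, e ≤ E → g e = (e : ℝ) * p e := by
    intro e he
    rw [hg]
    simp only
    rw [if_neg (by omega), if_neg (by omega)]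
  have s1 := Chw44.sum_split E J (by omega) p
  have s2 := Chw44.sum_split E J (by omega) (fun e => (e : ℝ) * p e)
  rw [hBSs] at s1
  simp only [hBSs (fun e => (e : ℝ) * p e)] at s2
  have r1 : ∑ n ∈ Icc 1 E, c n = ∑ e ∈ Icc 1 E, p e :=
    sum_congr rfl fun e he => c4 e (mem_Icc.1 he).2
  have r2 : ∑ n ∈ Icc 1 E, g n = ∑ e ∈ Icc 1 E, (e : ℝ) * p e :=
    sum_congr rfl fun e he => g4 e (mem_Icc.1 he).2
  have hSg : 0 ≤ ∑ e ∈ S, (e : ℝ) * p e :=
    sum_nonneg fun e _ => mul_nonneg (Nat.cast_nonneg e) (hp e)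
  -- sums over real sets
  have hc0 : ∀ n, 0 ≤ c n := by
    intro n
    rw [hc]
    simp only
    split_ifs
    · exact sum_nonneg fun e _ => hp e
    · exact sum_nonneg fun e _ => hp e
    · exact hp n
  have rc : ∀ K : Finset ℕ, K ⊆ labs E → ∑ e ∈ Chw44.real E K B S, p e = ∑ n ∈ K, c n := by
    intro K hK
    rw [Chw44.sum_real E K B S hB5 hS5 hBS]
    conv_rhs => rw [← Chw44.real_self E (by omega) K hK]
    rw [Chw44.sum_real E K {8} {9} (by intro e he; rw [mem_singleton] at he; omega)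
      (by intro e he; rw [mem_singleton] at he; omega) (by simp), sum_singleton, sum_singleton,
      c8, c9]
    congr 1
    exact sum_congr rfl fun e he => (c4 e (mem_filter.1 he).2).symm
  have rg : ∀ K : Finset ℕ, K ⊆ labs E →
      ∑ n ∈ K, g n ≤ t + ∑ e ∈ Chw44.real E K B S, (e : ℝ) * p e := by
    intro K hK
    rw [Chw44.sum_real E K B S hB5 hS5 hBS]
    conv_lhs => rw [← Chw44.real_self E (by omega) K hK]
    rw [Chw44.sum_real E K {8} {9} (by intro e he; rw [mem_singleton] at he; omega)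
      (by intro e he; rw [mem_singleton] at he; omega) (by simp), sum_singleton, sum_singleton,
      g8, g9]
    have e1 : ∑ e ∈ K.filter (· ≤ E), g e = ∑ e ∈ K.filter (· ≤ E), (e : ℝ) * p e :=
      sum_congr rfl fun e he => g4 e (mem_filter.1 he).2
    rw [e1]
    split_ifs <;> linarith
  refine ⟨c, g, hc0, ?_, ?_, ?_, ?_, ?_, ?_, ?_, ?_, ?_, ?_, ?_⟩
  · intro n
    rw [hg]
    simp only
    split_ifs
    · exact sum_nonneg fun e _ => mul_nonneg (Nat.cast_nonneg e) (hp e)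
    · linarith
    · exact mul_nonneg (Nat.cast_nonneg n) (hp n)
  · rw [r1, c8, c9]
    linarith
  · rw [r2, g8, g9]
    linarith
  · intro e he
    exact c4 e (mem_Icc.1 he).2
  · intro e he
    exact g4 e (mem_Icc.1 he).2
  · rw [c8, g8]
    exact h5 B hB5
  · rw [c9, g9]
    have := h5 S hS5
    linarith
  · rw [c9]
    exact hS10.le
  · rw [← hx]
    rcases hB1 with h | ⟨e0, he0, h, h'⟩
    · left
      rw [c8, g8, h]
      simp
    · right
      rw [c8, h, sum_singleton]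
      exact h'
  · rcases hB1 with h | ⟨e0, he0, h, _⟩
    · refine ⟨2, mem_Icc.2 ⟨le_rfl, by omega⟩, ?_⟩
      rw [c8, h, sum_empty]
      exact hp 2
    · have := mem_Icc.1 he0
      refine ⟨e0, mem_Icc.2 ⟨by omega, this.2⟩, ?_⟩
      rw [c8, h, sum_singleton]
  · intro D K d hd hD hK hDK
    have hDl : D ⊆ labs E := by
      rcases hD with hD | hD
      · intro n hn
        have := mem_Icc.1 (hD.1 hn)
        exact (Chw44.mem_labs E n).2 (by omega)
      · intro n hn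
        rw [hD, mem_singleton] at hn
        exact (Chw44.mem_labs E n).2 (by omega)
    have hd' : ∃ d' : ℕ, 2 ≤ d' ∧ d' ≤ J ∧ ∀ e ∈ Chw44.real E D B S, d' ∣ e := by
      rcases hD with hD | hD
      · have hmem : ∀ e ∈ Chw44.real E D B S, e ∈ D := by
          intro e he
          rcases (Chw44.mem_real E D B S e).1 he with h1 | h1 | h1
          · exact h1.1
          · have := mem_Icc.1 (hD.1 h1.1)
            omega
          · have := mem_Icc.1 (hD.1 h1.1)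
            omega
        rcases D.eq_empty_or_nonempty with h0 | ⟨n, hn⟩
        · refine ⟨2, le_rfl, by omega, fun e he => ?_⟩
          have := hmem e he
          rw [h0] at this
          simp at this
        · have h1 := mem_Icc.1 (hD.1 hn)
          have h2 := Nat.le_of_dvd (by omega) (hD.2 n hn)
          exact ⟨d, hd, by omega, fun e he => hD.2 e (hmem e he)⟩
      · have hmem : ∀ e ∈ Chw44.real E D B S, e ∈ B := by
          intro e he
          rcases (Chw44.mem_real E D B S e).1 he with h1 | h1 | h1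
          · rw [hD, mem_singleton] at h1
            omega
          · exact h1.2
          · rw [hD, mem_singleton] at h1
            omega
        rcases hB1 with h | ⟨e0, he0, h, _⟩
        · refine ⟨2, le_rfl, by omega, fun e he => ?_⟩
          have := hmem e he
          rw [h] at this
          simp at this
        · have h1 := mem_Icc.1 he0
          refine ⟨e0, by omega, h1.2, fun e he => ?_⟩
          have := hmem e he
          rw [h, mem_singleton] at this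
          rw [this]
    obtain ⟨d', d1, d2, d3⟩ := hd'
    exact ⟨Chw44.real E D B S, Chw44.real E K B S, d', d1, d2,
      Chw44.real_sub E J (by omega) (by omega) D B S hDl (hBI.trans h15) (hSI.trans h15),
      Chw44.real_sub E J (by omega) (by omega) K B S hK (hBI.trans h15) (hSI.trans h15),
      Chw44.real_disj E D K B S hB5 hS5 hBS hDK, d3, rc D hDl, rc K hK, rg K hK⟩

/-- the reduction, general form -/
theorem Chw44.gen (hS : S_SUB) (E : ℕ) (T h : ℝ) (hE2 : 2 ≤ E) (hE5 : E ≤ 5) (hT : 1 / 2 ≤ T)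
    (hh : 0 < h) (hhT : h ≤ T - 1 / 2) (hLK : Chw44.BLKg E T h) (hLM : S_LPG E T h) : CHG T := by
  intro J m p t a hJ hm hp ht hsum hi ha
  by_contra hA
  unfold Alt2 at hA
  push Not at hA
  obtain ⟨A, F, C, L, R, KS, N⟩ := hA
  obtain ⟨σ, hσ⟩ : ∃ σ : Equiv.Perm (Fin 3), σ 0 = a := ⟨Equiv.swap 0 a, Equiv.swap_apply_left 0 a⟩
  have hinj : ∀ i j : Fin 3, i ≠ j → σ i ≠ σ j := fun i j h h' => h (σ.injective h')
  have hX : ∀ l, 0 ≤ ∑ e ∈ Icc 1 J, p l e := fun l => sum_nonneg fun e _ => hp l e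
  have hsum3 : ∑ e ∈ Icc 1 J, p (σ 0) e + ∑ e ∈ Icc 1 J, p (σ 1) e +
      ∑ e ∈ Icc 1 J, p (σ 2) e ≤ 1 := by
    have := Equiv.sum_comp σ (fun l => ∑ e ∈ Icc 1 J, p l e)
    rw [Fin.sum_univ_three] at this
    rw [this]
    exact hsum
  have hlab : ∀ i j k : Fin 3, i ≠ j → i ≠ k → j ≠ k →
      ∑ e ∈ Icc 1 J, p i e + ∑ e ∈ Icc 1 J, p j e + ∑ e ∈ Icc 1 J, p k e ≤ 1 →
      ∃ c g : ℕ → ℝ, Chw44.Lab E J T h (p i) (t i) c g := by
    intro i j k hij hik hjk hs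
    exact Chw44.lab hS E T h hE2 hE5 hT hh hhT hLK J hJ (p i) (t i) _ _ (hp i) (ht i) (hX j)
      (hX k) hs (A i j hij) (A i k hik) (A j k hjk) (fun K hK => C i j k K hij hik hjk hK)
  have hlab' : ∀ l : Fin 3, ∃ c g : ℕ → ℝ, Chw44.Lab E J T h (p (σ l)) (t (σ l)) c g := by
    intro l
    fin_cases l
    · exact hlab (σ 0) (σ 1) (σ 2) (hinj _ _ (by decide)) (hinj _ _ (by decide))
        (hinj _ _ (by decide)) (by linarith)
    · exact hlab (σ 1) (σ 0) (σ 2) (hinj _ _ (by decide)) (hinj _ _ (by decide))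
        (hinj _ _ (by decide)) (by linarith)
    · exact hlab (σ 2) (σ 0) (σ 1) (hinj _ _ (by decide)) (hinj _ _ (by decide))
        (hinj _ _ (by decide)) (by linarith)
  choose c g hcg using hlab'
  have hG : ∀ l, ∑ n ∈ Icc 1 E, g l n + g l 8 + g l 9 =
      t (σ l) + ∑ e ∈ Icc 1 J, (e : ℝ) * p (σ l) e := fun l => (hcg l).hG
  have hleE : ∀ l e, e ∈ Icc 1 E → c l e = p (σ l) e := fun l e he => (hcg l).hcp e he
  have hbig : ∀ l e, e ∈ insert 8 (Icc 2 E) → ∃ e' ∈ Icc 2 J, c l e ≤ p (σ l) e' := by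
    intro l e he
    rcases mem_insert.1 he with h8 | he
    · rw [h8]
      exact (hcg l).hbig
    · have h := mem_Icc.1 he
      exact ⟨e, mem_Icc.2 ⟨h.1, by omega⟩, (hleE l e (mem_Icc.2 ⟨by omega, by omega⟩)).le⟩
  have hbig1 : ∀ l e, e ∈ insert 8 (Icc 1 E) → ∃ e' ∈ Icc 1 J, c l e ≤ p (σ l) e' := by
    intro l e he
    rcases mem_insert.1 he with h8 | he
    · obtain ⟨e', h1, h3⟩ := hbig l e (mem_insert.2 (Or.inl h8))
      exact ⟨e', Icc_subset_Icc_left (by norm_num) h1, h3⟩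
    · have h := mem_Icc.1 he
      exact ⟨e, mem_Icc.2 ⟨h.1, by omega⟩, (hleE l e he).le⟩
  -- real sets for `K` alone
  have hKr : ∀ l (K : Finset ℕ), K ⊆ labs E → ∃ K' : Finset ℕ, K' ⊆ Icc 1 J ∧
      ∑ e ∈ K', p (σ l) e = ∑ n ∈ K, c l n ∧
      ∑ n ∈ K, g l n ≤ t (σ l) + ∑ e ∈ K', (e : ℝ) * p (σ l) e := by
    intro l K hK
    obtain ⟨D', K', d', -, -, -, q1, -, -, -, q2, q3⟩ := (hcg l).hD ∅ K 2 le_rfl
      (Or.inl ⟨by simp, by simp⟩) hK (by simp)
    exact ⟨K', q1, q2, q3⟩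
  have ha0 : ∀ i : Fin 3, i ≠ 0 → a ≠ σ i := fun i h => by
    rw [← hσ]
    exact hinj 0 i (Ne.symm h)
  refine hLM m c g (fun l => ∑ e ∈ Icc 1 J, p (σ l) e) ?_
  refine ⟨fun l n => (hcg l).hc n, fun l n => (hcg l).hg n, fun l => (hcg l).hx, ?_,
    fun l => (hcg l).g8, fun l => (hcg l).g9, fun l => (hcg l).h9, fun l => (hcg l).hb, hsum3,
    fun j k hjk => A _ _ (hinj j k hjk), hm, ?_, ?_, ?_, ?_, ?_, ?_, ?_, ?_⟩
  · intro l n hn
    rw [(hcg l).hgp n hn, hleE l n hn]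
  · intro l
    rw [hG l]
    by_cases hl : l = 0
    · rw [hl, hσ]
      exact ha
    · exact (hi _ (Ne.symm (ha0 l hl))).le
  · intro l hl
    rw [hG l]
    exact hi _ (Ne.symm (ha0 l hl))
  · intro i j k e f hij hik hjk he hf
    obtain ⟨e', h1, h2⟩ := hbig j e he
    obtain ⟨f', h3, h4⟩ := hbig k f hf
    have q := F (σ i) (σ j) (σ k) e' f' (hinj _ _ hij) (hinj _ _ hik) (hinj _ _ hjk) h1 h3
    show T < (∑ e ∈ Icc 1 J, p (σ i) e) / 2 + (∑ e ∈ Icc 1 J, p (σ j) e - c j e / 2) +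
      (∑ e ∈ Icc 1 J, p (σ k) e - c k f / 2)
    linarith
  · intro i j k K hij hik hjk hK
    obtain ⟨K', h1, h2, h3⟩ := hKr i K hK
    have q := C (σ i) (σ j) (σ k) K' (hinj _ _ hij) (hinj _ _ hik) (hinj _ _ hjk) h1
    rw [h2] at q
    have q1 := Chw44.phi4_anti (x := ∑ e ∈ Icc 1 J, p (σ j) e) h3
    have q2 := Chw44.phi4_anti (x := ∑ e ∈ Icc 1 J, p (σ k) e) h3
    show T < ∑ n ∈ K, c i n + (Phi4 (∑ e ∈ Icc 1 J, p (σ j) e) (∑ n ∈ K, g i n) +
      Phi4 (∑ e ∈ Icc 1 J, p (σ k) e) (∑ n ∈ K, g i n)) / 2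
    linarith
  · intro i j k K e hij hik hjk hK he
    obtain ⟨K', h1, h2, h3⟩ := hKr i K hK
    have he' := mem_Icc.1 he
    have q := L (σ i) (σ j) (σ k) K' e (hinj _ _ hij) (hinj _ _ hik) (hinj _ _ hjk) h1
      (mem_Icc.2 ⟨he'.1, by omega⟩)
    rw [h2] at q
    rw [hleE j e he, hleE k e he]
    have q1 : max 0 (p (σ j) e + p (σ k) e - (t (σ i) + ∑ n ∈ K', (n : ℝ) * p (σ i) n)) ≤
        max 0 (p (σ j) e + p (σ k) e - ∑ n ∈ K, g i n) := max_le_max le_rfl (by linarith)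
    show T < ∑ n ∈ K, c i n + (∑ e ∈ Icc 1 J, p (σ j) e - p (σ j) e) +
      (∑ e ∈ Icc 1 J, p (σ k) e - p (σ k) e) + _
    linarith
  · intro l e hl he
    obtain ⟨e', h1, h2⟩ := hbig1 l e he
    rw [hG 0, hσ]
    have q1 : min (c l e) (m - (t a + ∑ e ∈ Icc 1 J, (e : ℝ) * p a e)) ≤
        min (p (σ l) e') (m - (t a + ∑ e ∈ Icc 1 J, (e : ℝ) * p a e)) := min_le_min h2 le_rfl
    show T < ∑ e ∈ Icc 1 J, p (σ 1) e + ∑ e ∈ Icc 1 J, p (σ 2) e -
      min (c l e) (m - (t a + ∑ e ∈ Icc 1 J, (e : ℝ) * p a e))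
    fin_cases l
    · exact absurd rfl hl
    · have q := R (σ 2) (σ 1) e' (ha0 2 (by decide)) (ha0 1 (by decide)) (hinj _ _ (by decide)) h1
      simp only [Fin.mk_one, Fin.isValue] at q1 ⊢
      linarith
    · have q := R (σ 1) (σ 2) e' (ha0 1 (by decide)) (ha0 2 (by decide)) (hinj _ _ (by decide)) h1
      simp only [Fin.reduceFinMk, Fin.isValue] at q1 ⊢
      linarith
  · intro i j k D K d hij hik hjk hd hD hK hDK
    obtain ⟨D', K', d', d1, d2, d3, d4, d5, d6, d7, d8, d9⟩ := (hcg i).hD D K d hd hD hK hDK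
    show T < ∑ n ∈ K, c i n + ∑ e ∈ Icc 1 J, p (σ k) e ∨
      T < (∑ e ∈ Icc 1 J, p (σ i) e - ∑ n ∈ D, c i n) +
        (Phi4 (∑ e ∈ Icc 1 J, p (σ j) e) (∑ n ∈ K, g i n) + ∑ e ∈ Icc 1 J, p (σ k) e) / 2
    rcases lt_or_ge T (∑ n ∈ K, c i n + ∑ e ∈ Icc 1 J, p (σ k) e) with h1 | h1
    · exact Or.inl h1
    · right
      rw [← d8] at h1
      have q := KS (σ i) (σ j) (σ k) D' K' d' (hinj _ _ hij) (hinj _ _ hik) (hinj _ _ hjk) d1 d2
        d3 d4 d5 d6 h1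
      have q1 := Chw44.phi4_anti (x := ∑ e ∈ Icc 1 J, p (σ j) e) d9
      rw [d7] at q
      linarith
  · have e1 := Equiv.sum_comp σ (fun l => (∑ e ∈ Icc 1 J, p l e - p l 2))
    have e2 := Equiv.sum_comp σ (fun l => p l 2)
    rw [Fin.sum_univ_three, Fin.sum_univ_three] at e2
    have h2 : ∀ l, c l 2 = p (σ l) 2 := fun l => hleE l 2 (mem_Icc.2 ⟨by norm_num, hE2⟩)
    rw [← e1, ← e2] at N
    simp only [h2]
    exact N

/-- **CHW.** -/
theorem chw_thm (hS : S_SUB) (hB : S_BLK) : S_CHW := by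
  intro hL
  refine Chw44.gen hS 4 (7 / 12) (2 / 25) (by norm_num) (by norm_num) (by norm_num) (by norm_num)
    (by norm_num) ?_ hL
  intro x xj xk k g h1 h2 h3 h4 h5 h6 h7 h8 h9 h10
  refine hB x xj xk k g h1 h2 h3 h4 h5 h6 h7 h8 (by linarith) ?_
  push_cast at h10
  linarith

end Pool.LDV2
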